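import Pool.Agent.Helper98_Wadge.Final

/-!
The well-founded part of the Wadge order on the real line below the rationals contains sets that
are not equivalent to the minimal set.
-/

namespace Pool.Agent.Results.MP_657b9f_lc.WadgeWellFounded

/-- `A` is reducible to `B` by a continuous function on the line. -/
def Red (A B : Set ℝ) : Prop := ∃ f : ℝ → ℝ, Continuous f ∧ A = f ⁻¹' B

/-- Wadge equivalence. -/
def WEquiv (A B : Set ℝ) : Prop := Red A B ∧ Red B A

/-- Strict reducibility. -/
def SLt (A B : Set ℝ) : Prop := Red A B ∧ ¬ Red B A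

/-- The rationals as a set of reals. -/
def ratSet : Set ℝ := Set.range ((↑) : ℚ → ℝ)

/-- The class of sets reducible to the rationals that are neither open nor closed. -/
def InD (A : Set ℝ) : Prop := Red A ratSet ∧ ¬ IsOpen A ∧ ¬ IsClosed A

/-- Minimal sets among the sets that are neither open nor closed. -/
def IsMin' (A : Set ℝ) : Prop := ¬ IsOpen A ∧ ¬ IsClosed A ∧
  ∀ B : Set ℝ, ¬ IsOpen B → ¬ IsClosed B → Red B A → Red A B

/-- The well-founded part of the class. -/
def InWF (A : Set ℝ) : Prop := InD A ∧ ¬ ∃ s : ℕ → Set ℝ, s 0 = A ∧ (∀ n, InD (s n)) ∧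
  ∀ n, SLt (s (n + 1)) (s n)

/-- There is a minimal set in the class, and the well-founded part contains a set that is
not equivalent to any minimal set. -/
theorem result : (∃ E : Set ℝ, InD E ∧ IsMin' E) ∧
    ∃ A : Set ℝ, InWF A ∧ ∀ E : Set ℝ, IsMin' E → ¬ WEquiv A E := by
  obtain ⟨M, A, ⟨h1, h2⟩, h3, h4, h5⟩ := Helper98.Wadge.final
  exact ⟨⟨M, h1, h2⟩, A, ⟨h3, h5⟩, h4⟩

end Pool.Agent.Results.MP_657b9f_lc.WadgeWellFounded
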